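import Mathlib

/-!
Definitions for `MP_3faef8_co` (the equitable 1-2-3 conjecture).
-/

namespace Pool.Agent.H1.Equit

open Classical

variable {V : Type} [Fintype V]

/-- `G` is nice: no connected component is isomorphic to `K₂`. -/
def Nice (G : SimpleGraph V) : Prop :=
  ∀ c : G.ConnectedComponent, IsEmpty (G.induce c.supp ≃g (⊤ : SimpleGraph (Fin 2)))

/-- `σ_ℓ(v)`, the sum of the labels of the edges at `v`. -/
noncomputable def vsum (G : SimpleGraph V) (ℓ : Sym2 V → ℕ) (v : V) : ℕ :=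
  ∑ e ∈ G.edgeFinset.filter (fun e => v ∈ e), ℓ e

/-- the number of edges with label `l` -/
noncomputable def nb (G : SimpleGraph V) (ℓ : Sym2 V → ℕ) (l : ℕ) : ℕ :=
  (G.edgeFinset.filter (fun e => ℓ e = l)).card

/-- `ℓ` is a `k`-labelling of the edges of `G`. -/
def IsLabelling (G : SimpleGraph V) (k : ℕ) (ℓ : Sym2 V → ℕ) : Prop :=
  ∀ e ∈ G.edgeSet, 1 ≤ ℓ e ∧ ℓ e ≤ k

/-- `ℓ` is proper. -/
def IsProper (G : SimpleGraph V) (ℓ : Sym2 V → ℕ) : Prop :=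
  ∀ u v, G.Adj u v → vsum G ℓ u ≠ vsum G ℓ v

/-- `ℓ` is equitable: `|nb(l) - nb(l')| ≤ 1` for all labels that are used. -/
def IsEquitable (G : SimpleGraph V) (ℓ : Sym2 V → ℕ) : Prop :=
  ∀ l l', nb G ℓ l ≠ 0 → nb G ℓ l' ≠ 0 → nb G ℓ l ≤ nb G ℓ l' + 1

/-- Q1: every nice graph other than `K₄` has an equitable proper `3`-labelling. -/
def EquitableConjecture : Prop :=
  ∀ (V : Type) [Fintype V] (G : SimpleGraph V), Nice G →
    IsEmpty (G ≃g (⊤ : SimpleGraph (Fin 4))) →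
    ∃ ℓ : Sym2 V → ℕ, IsLabelling G 3 ℓ ∧ IsProper G ℓ ∧ IsEquitable G ℓ

end Pool.Agent.H1.Equit
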