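import Mathlib
import Pool.Agent.H1.Equit.Defs

/-!
The disjoint union of `K₄` and `K₃` has no equitable proper 3-labelling.
-/

namespace Pool.Agent.H1.Equit

/-- `K₄ ∪ K₃` -/
def G7 : SimpleGraph (Fin 7) where
  Adj i j := i ≠ j ∧ (i.1 < 4 ↔ j.1 < 4)
  symm := ⟨fun _ _ h => ⟨h.1.symm, h.2.symm⟩⟩
  loopless := ⟨fun _ h => h.1 rfl⟩

instance : DecidableRel G7.Adj := fun i j => by unfold G7; infer_instance

theorem edges : G7.edgeFinset = {s(0, 1), s(0, 2), s(0, 3), s(1, 2), s(1, 3), s(2, 3), s(4, 5),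
    s(4, 6), s(5, 6)} := by decide +kernel

theorem inc0 : G7.edgeFinset.filter (fun e => (0 : Fin 7) ∈ e) = {s(0, 1), s(0, 2), s(0, 3)} := by
  decide +kernel
theorem inc1 : G7.edgeFinset.filter (fun e => (1 : Fin 7) ∈ e) = {s(0, 1), s(1, 2), s(1, 3)} := by
  decide +kernel
theorem inc2 : G7.edgeFinset.filter (fun e => (2 : Fin 7) ∈ e) = {s(0, 2), s(1, 2), s(2, 3)} := by
  decide +kernel
theorem inc3 : G7.edgeFinset.filter (fun e => (3 : Fin 7) ∈ e) = {s(0, 3), s(1, 3), s(2, 3)} := by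
  decide +kernel
theorem inc4 : G7.edgeFinset.filter (fun e => (4 : Fin 7) ∈ e) = {s(4, 5), s(4, 6)} := by
  decide +kernel
theorem inc5 : G7.edgeFinset.filter (fun e => (5 : Fin 7) ∈ e) = {s(4, 5), s(5, 6)} := by
  decide +kernel
theorem inc6 : G7.edgeFinset.filter (fun e => (6 : Fin 7) ∈ e) = {s(4, 6), s(5, 6)} := by
  decide +kernel

theorem vsum_eq (ℓ : Sym2 (Fin 7) → ℕ) (v : Fin 7) :
    vsum G7 ℓ v = ∑ e ∈ G7.edgeFinset.filter (fun e => v ∈ e), ℓ e := by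
  unfold vsum
  refine Finset.sum_congr ?_ (fun _ _ => rfl)
  ext e
  simp only [Finset.mem_filter, SimpleGraph.mem_edgeFinset]

theorem nb_eq (ℓ : Sym2 (Fin 7) → ℕ) (l : ℕ) :
    nb G7 ℓ l = (G7.edgeFinset.filter (fun e => ℓ e = l)).card := by
  unfold nb
  refine congrArg Finset.card ?_
  ext e
  simp only [Finset.mem_filter, SimpleGraph.mem_edgeFinset]

def ind (x l : ℕ) : ℕ := if x = l then 1 else 0

theorem nb_formula (ℓ : Sym2 (Fin 7) → ℕ) (l : ℕ) :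
    nb G7 ℓ l = ind (ℓ s(0, 1)) l + (ind (ℓ s(0, 2)) l + (ind (ℓ s(0, 3)) l + (ind (ℓ s(1, 2)) l +
      (ind (ℓ s(1, 3)) l + (ind (ℓ s(2, 3)) l + (ind (ℓ s(4, 5)) l + (ind (ℓ s(4, 6)) l +
      ind (ℓ s(5, 6)) l))))))) := by
  rw [nb_eq, Finset.card_filter, edges]
  rw [Finset.sum_insert (by decide +kernel), Finset.sum_insert (by decide +kernel),
    Finset.sum_insert (by decide +kernel), Finset.sum_insert (by decide +kernel),
    Finset.sum_insert (by decide +kernel), Finset.sum_insert (by decide +kernel),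
    Finset.sum_insert (by decide +kernel), Finset.sum_insert (by decide +kernel),
    Finset.sum_singleton]
  rfl

/-- the numerical check -/
def cnt (a b c d e f g h k l : ℕ) : ℕ :=
  ind a l + (ind b l + (ind c l + (ind d l + (ind e l + (ind f l + (ind g l + (ind h l +
    ind k l)))))))

theorem check : ∀ g ∈ [1, 2, 3], ∀ h ∈ [1, 2, 3], ∀ k ∈ [1, 2, 3], g + h ≠ g + k → g + h ≠ h + k →
    g + k ≠ h + k →
    ∀ a ∈ [1, 2, 3], ∀ b ∈ [1, 2, 3], ∀ c ∈ [1, 2, 3], ∀ d ∈ [1, 2, 3], ∀ e ∈ [1, 2, 3],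
    ∀ f ∈ [1, 2, 3],
    (∀ l ∈ [1, 2, 3], ∀ l' ∈ [1, 2, 3], cnt a b c d e f g h k l ≠ 0 →
      cnt a b c d e f g h k l' ≠ 0 → cnt a b c d e f g h k l ≤ cnt a b c d e f g h k l' + 1) →
    a + b + c ≠ a + d + e → a + b + c ≠ b + d + f → a + b + c ≠ c + e + f →
    a + d + e ≠ b + d + f → a + d + e ≠ c + e + f → b + d + f ≠ c + e + f → False := by
  decide +kernel

theorem no_labelling (ℓ : Sym2 (Fin 7) → ℕ) (h1 : IsLabelling G7 3 ℓ) (h2 : IsProper G7 ℓ)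
    (h3 : IsEquitable G7 ℓ) : False := by
  have hmem : ∀ e ∈ G7.edgeSet, ℓ e ∈ [1, 2, 3] := by
    intro e he
    have := h1 e he
    have h : ℓ e = 1 ∨ ℓ e = 2 ∨ ℓ e = 3 := by omega
    simpa using h
  have adj : ∀ i j : Fin 7, i ≠ j → (i.1 < 4 ↔ j.1 < 4) → G7.Adj i j := fun i j a b => ⟨a, b⟩
  have m : ∀ i j : Fin 7, i ≠ j → (i.1 < 4 ↔ j.1 < 4) → ℓ s(i, j) ∈ [1, 2, 3] := fun i j a b =>
    hmem _ (adj i j a b)
  have p : ∀ i j : Fin 7, i ≠ j → (i.1 < 4 ↔ j.1 < 4) → vsum G7 ℓ i ≠ vsum G7 ℓ j :=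
    fun i j a b => h2 i j (adj i j a b)
  have s0 : vsum G7 ℓ 0 = ℓ s(0, 1) + ℓ s(0, 2) + ℓ s(0, 3) := by
    rw [vsum_eq, inc0, Finset.sum_insert (by decide +kernel), Finset.sum_insert (by decide +kernel),
      Finset.sum_singleton, ← add_assoc]
  have s1 : vsum G7 ℓ 1 = ℓ s(0, 1) + ℓ s(1, 2) + ℓ s(1, 3) := by
    rw [vsum_eq, inc1, Finset.sum_insert (by decide +kernel), Finset.sum_insert (by decide +kernel),
      Finset.sum_singleton, ← add_assoc]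
  have s2 : vsum G7 ℓ 2 = ℓ s(0, 2) + ℓ s(1, 2) + ℓ s(2, 3) := by
    rw [vsum_eq, inc2, Finset.sum_insert (by decide +kernel), Finset.sum_insert (by decide +kernel),
      Finset.sum_singleton, ← add_assoc]
  have s3 : vsum G7 ℓ 3 = ℓ s(0, 3) + ℓ s(1, 3) + ℓ s(2, 3) := by
    rw [vsum_eq, inc3, Finset.sum_insert (by decide +kernel), Finset.sum_insert (by decide +kernel),
      Finset.sum_singleton, ← add_assoc]
  have s4 : vsum G7 ℓ 4 = ℓ s(4, 5) + ℓ s(4, 6) := by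
    rw [vsum_eq, inc4, Finset.sum_insert (by decide +kernel), Finset.sum_singleton]
  have s5 : vsum G7 ℓ 5 = ℓ s(4, 5) + ℓ s(5, 6) := by
    rw [vsum_eq, inc5, Finset.sum_insert (by decide +kernel), Finset.sum_singleton]
  have s6 : vsum G7 ℓ 6 = ℓ s(4, 6) + ℓ s(5, 6) := by
    rw [vsum_eq, inc6, Finset.sum_insert (by decide +kernel), Finset.sum_singleton]
  have q45 := p 4 5 (by decide) (by decide)
  have q46 := p 4 6 (by decide) (by decide)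
  have q56 := p 5 6 (by decide) (by decide)
  have q01 := p 0 1 (by decide) (by decide)
  have q02 := p 0 2 (by decide) (by decide)
  have q03 := p 0 3 (by decide) (by decide)
  have q12 := p 1 2 (by decide) (by decide)
  have q13 := p 1 3 (by decide) (by decide)
  have q23 := p 2 3 (by decide) (by decide)
  rw [s4, s5] at q45
  rw [s4, s6] at q46
  rw [s5, s6] at q56
  rw [s0, s1] at q01
  rw [s0, s2] at q02
  rw [s0, s3] at q03
  rw [s1, s2] at q12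
  rw [s1, s3] at q13
  rw [s2, s3] at q23
  have heq : ∀ l ∈ [1, 2, 3], ∀ l' ∈ [1, 2, 3],
      cnt (ℓ s(0, 1)) (ℓ s(0, 2)) (ℓ s(0, 3)) (ℓ s(1, 2)) (ℓ s(1, 3)) (ℓ s(2, 3)) (ℓ s(4, 5))
        (ℓ s(4, 6)) (ℓ s(5, 6)) l ≠ 0 →
      cnt (ℓ s(0, 1)) (ℓ s(0, 2)) (ℓ s(0, 3)) (ℓ s(1, 2)) (ℓ s(1, 3)) (ℓ s(2, 3)) (ℓ s(4, 5))
        (ℓ s(4, 6)) (ℓ s(5, 6)) l' ≠ 0 →
      cnt (ℓ s(0, 1)) (ℓ s(0, 2)) (ℓ s(0, 3)) (ℓ s(1, 2)) (ℓ s(1, 3)) (ℓ s(2, 3)) (ℓ s(4, 5))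
        (ℓ s(4, 6)) (ℓ s(5, 6)) l ≤
      cnt (ℓ s(0, 1)) (ℓ s(0, 2)) (ℓ s(0, 3)) (ℓ s(1, 2)) (ℓ s(1, 3)) (ℓ s(2, 3)) (ℓ s(4, 5))
        (ℓ s(4, 6)) (ℓ s(5, 6)) l' + 1 := by
    intro l _ l' _ a b
    have := h3 l l'
    rw [nb_formula, nb_formula] at this
    exact this a b
  exact check _ (m 4 5 (by decide) (by decide)) _ (m 4 6 (by decide) (by decide)) _
    (m 5 6 (by decide) (by decide)) q45 q46 q56 _ (m 0 1 (by decide) (by decide))
    _ (m 0 2 (by decide) (by decide)) _ (m 0 3 (by decide) (by decide))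
    _ (m 1 2 (by decide) (by decide)) _ (m 1 3 (by decide) (by decide))
    _ (m 2 3 (by decide) (by decide)) heq q01 q02 q03 q12 q13 q23

theorem nice7 : Nice G7 := by
  intro c
  refine ⟨fun φ => ?_⟩
  obtain ⟨v, hv⟩ := c.exists_rep
  -- every vertex has two distinct neighbours
  have h2 : ∀ v : Fin 7, ∃ x y, G7.Adj v x ∧ G7.Adj v y ∧ x ≠ y := by decide +kernel
  obtain ⟨x, y, hx, hy, hxy⟩ := h2 v
  have hvs : v ∈ c.supp := by
    rw [SimpleGraph.ConnectedComponent.mem_supp_iff]; exact hv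
  have hxs : x ∈ c.supp := by
    rw [SimpleGraph.ConnectedComponent.mem_supp_iff] at hvs ⊢
    rw [← hvs]
    exact (SimpleGraph.ConnectedComponent.sound hx.reachable).symm
  have hys : y ∈ c.supp := by
    rw [SimpleGraph.ConnectedComponent.mem_supp_iff] at hvs ⊢
    rw [← hvs]
    exact (SimpleGraph.ConnectedComponent.sound hy.reachable).symm
  have e1 : φ ⟨v, hvs⟩ ≠ φ ⟨x, hxs⟩ := fun h => hx.ne (congrArg Subtype.val (φ.injective h))
  have e2 : φ ⟨v, hvs⟩ ≠ φ ⟨y, hys⟩ := fun h => hy.ne (congrArg Subtype.val (φ.injective h))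
  have e3 : φ ⟨x, hxs⟩ ≠ φ ⟨y, hys⟩ := fun h => hxy (congrArg Subtype.val (φ.injective h))
  generalize φ ⟨v, hvs⟩ = a at e1 e2
  generalize φ ⟨x, hxs⟩ = b at e1 e3
  generalize φ ⟨y, hys⟩ = d at e2 e3
  omega

theorem notK4 : IsEmpty (G7 ≃g (⊤ : SimpleGraph (Fin 4))) := by
  refine ⟨fun φ => ?_⟩
  have := Fintype.card_congr φ.toEquiv
  simp at this

theorem main : ¬ EquitableConjecture := by
  intro h
  obtain ⟨ℓ, h1, h2, h3⟩ := h (Fin 7) G7 nice7 notK4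
  exact no_labelling ℓ h1 h2 h3

end Pool.Agent.H1.Equit
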